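import Pool.Agent.Helper45_MVS.Base

/-!
# MVS: the Gauss lemma (GAU)
-/

noncomputable section

open scoped ContDiff Topology RealInnerProductSpace
set_option maxSynthPendingDepth 3
open Set

namespace Pool.Agent.MVS.H45

open Pool.Agent.RF Pool.Agent.MVS

variable {G : E5 → Bil E5} {κ : Finset (Fin 5)} {a b : ℝ} {F : E5 → E5}

/-- `G(T, J_w)(t) = t ⟪y,w⟫` along the geodesic `F (σ + t y)`, `J_w = DF (n + t w)` -/
theorem gau_line (hR : RotStatement) (hE : EqvStatement) (hM : McoStatement)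
    (hSet : Setup G κ a b) (hN : NData G κ F) {σ y n w : E5} (hσ : pP κ σ = 0) (h0 : σ ≠ 0)
    (hy : pN κ y = 0) (hn : pP κ n = 0) (hw : pN κ w = 0) (t : ℝ) :
    G (F (σ + t • y)) (fderiv ℝ F (σ + t • y) y) (fderiv ℝ F (σ + t • y) (n + t • w)) =
      t * ⟪y, w⟫ := by
  have hS := hSet.cyl.metric
  have hd : ∀ t : ℝ, HasDerivAt (fun s : ℝ => G (F (σ + s • y)) (fderiv ℝ F (σ + s • y) y)
      (fderiv ℝ F (σ + s • y) (n + s • w)) - s * ⟪y, w⟫) 0 t := by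
    intro t
    have hz := pN_line_ne hR hσ h0 hy t
    have h1 := hasDerivAt_F hN hz (hasDerivAt_line σ y t)
    have h2 := hasDerivAt_DF hN hz (hasDerivAt_line σ y t) (hasDerivAt_const t y)
    have h3 := hasDerivAt_DF hN hz (hasDerivAt_line σ y t) (hasDerivAt_line n w t)
    have h4 := hM (Fin 5) G (Om (Fin 5)) hS _ _ _ _ _ _ t (memOm hN hz) h1 h2 h3
    rw [map_zero, add_zero, geo' hR hN hσ h0 hy t, map_zero, _root_.zero_apply, zero_add,
      symF hN hz, hS.chris_symm (memOm hN hz), speed_var hR hM hS hN hσ h0 hy hn hw t] at h4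
    have h5 := h4.sub ((hasDerivAt_id t).mul_const (⟪y, w⟫ : ℝ))
    refine h5.congr_deriv ?_
    simp
  have h1 : ∀ s t : ℝ, G (F (σ + s • y)) (fderiv ℝ F (σ + s • y) y)
      (fderiv ℝ F (σ + s • y) (n + s • w)) - s * ⟪y, w⟫ =
        G (F (σ + t • y)) (fderiv ℝ F (σ + t • y) y)
      (fderiv ℝ F (σ + t • y) (n + t • w)) - t * ⟪y, w⟫ :=
    is_const_of_deriv_eq_zero (fun t => (hd t).differentiableAt) (fun t => (hd t).deriv)
  have h2 := h1 t 0
  rw [zero_smul, zero_smul, add_zero, add_zero, hN.base σ hσ h0, hN.dN σ hσ h0 n hn,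
    zero_mul, sub_zero, hS.symm σ h0, (hE G κ a b hSet).2.1 σ hσ h0 n _ hn (hN.dP σ hσ h0 y hy)] at h2
  linarith

theorem gau (hR : RotStatement) (hE : EqvStatement) (hM : McoStatement) : GauStatement := by
  intro G κ a b F hSet hN z hz w
  have h1 := hR.1 κ z
  have h2 : pP κ (pN κ z) = 0 := hR.2.2.2.2.2.2.1 κ z
  have h3 : pN κ (pP κ z) = 0 := hR.2.2.2.2.2.2.2.1 κ z
  have h4 : pP κ (pN κ w) = 0 := hR.2.2.2.2.2.2.1 κ w
  have h5 : pN κ (pP κ w) = 0 := hR.2.2.2.2.2.2.2.1 κ w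
  have h6 := gau_line hR hE hM hSet hN h2 hz h3 h4 h5 1
  rw [one_smul, one_smul, h1, hR.1 κ w, one_mul] at h6
  rw [h6]
  have h7 := hR.2.2.2.1 κ (pP κ z) w
  rw [← h7, hR.2.2.2.2.1 κ z]

end Pool.Agent.MVS.H45
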